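import Pool.Agent.H.MP_55c352_al.C

set_option autoImplicit false

namespace Pool.Agent.Results.MP_55c352_al.No

open scoped LinearAlgebra.Projectivization Matrix
open Filter Topology Pool.Agent.H.MP_55c352_al

/-- `x` is the limit of the injective sequence of points `g k · p`. -/
def Arises {n : ℕ} {W : Type} [Group W] (ρ : W →* ((Fin n → ℝ) ≃ₗ[ℝ] (Fin n → ℝ)))
    (p : ℙ ℝ (Fin n → ℝ)) (g : ℕ → W) (x : ℙ ℝ (Fin n → ℝ)) : Prop :=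
  (Function.Injective fun k => act (ρ (g k)) p) ∧ Tendsto (fun k => act (ρ (g k)) p) atTop (𝓝 x)

theorem result : ∃ (M : CoxeterMatrix (Fin 3)) (B : Matrix (Fin 3) (Fin 3) ℝ)
    (ρ : M.Group →* ((Fin 3 → ℝ) ≃ₗ[ℝ] (Fin 3 → ℝ))),
    M 0 1 = 0 ∧ M 1 2 = 3 ∧ M 0 2 = 2 ∧ IsLor M B ρ ∧
    ∃ x : ℙ ℝ (Fin 3 → ℝ), 0 < x.rep ⬝ᵥ B *ᵥ x.rep ∧ (∃ p g, Arises ρ p g x) ∧
      ∀ (w : M.Group) (p : ℙ ℝ (Fin 3 → ℝ)) (k : ℕ → ℤ), StrictMono k →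
        ¬ Arises ρ p (fun j => w ^ k j) x := by
  obtain ⟨t, x, hx, g, h1, h2, h3, -, h4⟩ := exists_lim
  refine ⟨M0, B0, ρ, rfl, rfl, rfl, isLor, .mk ℝ x hx, ?_, ⟨_, g, h3, h4⟩,
    fun w p k hk h => no_pow hx h1 h2 w p k hk h.1 h.2⟩
  obtain ⟨a, ha⟩ := Projectivization.exists_smul_eq_mk_rep ℝ x hx
  have := a.ne_zero
  rw [← ha, ← q, Units.smul_def, q_smul]
  positivity

end Pool.Agent.Results.MP_55c352_al.No
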